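import Pool.Agent.H37.CNH.Stmts
import Pool.Agent.H18.CND.HBP
import Pool.Agent.H1.CND.SAM

/-!
# Board `cnh`, row HCY (helper1)
-/

set_option autoImplicit false

namespace Pool.CND

open Finset

/-- `b` of the generators of a cyclic group -/
theorem hcy_cop (h1 : S_LON) (h2 : S_INJ) {k L : Type} [Field k] [Field L] [Algebra k L]
    (P : Place k L) (g : L ≃ₐ[k] L) (hg : Fixes P g) (hg1 : g ≠ 1) (M s : ℕ) (hM : 1 < M)
    (hgM : g ^ M = 1) (hs : Nat.Coprime s M) : P.b (g ^ s) = P.b g := by
  obtain ⟨m, hm⟩ : ∃ m : ℕ, s * m % M = 1 := by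
    obtain ⟨m, hm⟩ := Nat.exists_mul_mod_eq_one_of_coprime hs hM
    exact ⟨m, hm.2⟩
  have e1 : (g ^ s) ^ m = g := by
    rw [← pow_mul, pow_eq_pow_mod _ hgM, hm, pow_one]
  have ha1 : g ^ s ≠ 1 := by
    intro h
    rw [h, one_pow] at e1
    exact hg1 e1.symm
  apply le_antisymm
  · have h := sam_mono h1 h2 P (g ^ s) (hg.pow s) ha1 m (by rw [e1]; exact hg1)
    rwa [e1] at h
  · exact sam_mono h1 h2 P g hg hg1 s ha1

theorem hcy_thm (hHST : S_HST) (hFXP : S_FXP) (hRST : S_RST) (hART : S_ART) (hHER : S_HER)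
    (hLON : S_LON) (hINJ : S_INJ) : S_HCY := by
  classical
  intro p k L _ _ _ P γ n hp
  induction n generalizing L with
  | zero =>
    intro _ _ j hj1 hj0
    omega
  | succ n ih =>
    intro hfix hord
    have hppos : 0 < p := hp.pos
    have hfinz : Finite (Subgroup.zpowers γ) := by
      apply Nat.finite_of_card_ne_zero
      rw [Nat.card_zpowers, hord]
      exact pow_ne_zero _ hp.ne_zero
    have hft : Fintype (Subgroup.zpowers γ) := Fintype.ofFinite _
    let g0 : Subgroup.zpowers γ := ⟨γ, Subgroup.mem_zpowers γ⟩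
    let ρ : Subgroup.zpowers γ →* (L ≃ₐ[k] L) := (Subgroup.zpowers γ).subtype
    have hρ : ∀ m : ℕ, ρ (g0 ^ m) = γ ^ m := fun m => by
      rw [map_pow]; rfl
    have hinj : Function.Injective ρ := (Subgroup.zpowers γ).subtype_injective
    have hord0 : orderOf g0 = p ^ (n + 1 + 1) := by
      rw [← hord]
      exact (orderOf_injective ρ hinj g0).symm
    let c : Subgroup.zpowers γ := g0 ^ (p ^ (n + 1))
    have hcord : orderOf c = p := by
      have h1 : orderOf c = p ^ (n + 1 + 1) / p ^ (n + 1) := by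
        rw [← hord0]
        exact orderOf_pow_of_dvd (pow_ne_zero _ hp.ne_zero) (by rw [hord0]; exact pow_dvd_pow p (by omega))
      rw [h1, pow_succ p (n + 1), Nat.mul_div_cancel_left _ (pow_pos hppos _)]
    let N : Subgroup (Subgroup.zpowers γ) := Subgroup.zpowers c
    have hNcard : Nat.card N = p := by
      rw [Nat.card_zpowers, hcord]
    have hNel : ∀ x ∈ N, ∃ t : ℕ, x = g0 ^ (p ^ (n + 1) * t) := by
      intro x hx
      have h1 : x ∈ Submonoid.powers c := mem_powers_iff_mem_zpowers.2 hx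
      obtain ⟨t, ht⟩ := h1
      exact ⟨t, by rw [pow_mul]; exact ht.symm⟩
    have hNiff : ∀ m : ℕ, g0 ^ m ∈ N ↔ p ^ (n + 1) ∣ m := by
      intro m
      constructor
      · intro h
        obtain ⟨t, ht⟩ := hNel _ h
        have h2 := pow_eq_pow_iff_modEq.1 ht
        rw [hord0] at h2
        have h3 : m ≡ p ^ (n + 1) * t [MOD p ^ (n + 1)] := h2.of_dvd (pow_dvd_pow p (by omega))
        have h4 : p ^ (n + 1) * t ≡ 0 [MOD p ^ (n + 1)] :=
          (Nat.modEq_zero_iff_dvd).2 ⟨t, rfl⟩
        exact (Nat.modEq_zero_iff_dvd).1 (h3.trans h4)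
      · rintro ⟨t, rfl⟩
        rw [pow_mul]
        exact N.pow_mem (Subgroup.mem_zpowers c) t
    have hcomm : ∀ m : ℕ, ∀ x ∈ N, g0 ^ m * x * (g0 ^ m)⁻¹ = x := by
      intro m x hx
      obtain ⟨t, rfl⟩ := hNel x hx
      rw [← pow_add, add_comm, pow_add, mul_assoc, mul_inv_cancel, mul_one]
    have hNfix : ∀ x ∈ N, Fixes P (ρ x) := by
      intro x hx
      obtain ⟨t, rfl⟩ := hNel x hx
      rw [hρ]
      exact hfix.pow _
    obtain ⟨F, hF, Q, hQ⟩ := hFXP k L _ P ρ N hinj hNfix
    obtain ⟨γ', hγ', hγf⟩ := hRST k L _ P ρ N F Q g0 hF hQ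
      (fun x hx => by
        have := hcomm 1 x hx
        rw [pow_one] at this
        rw [this]; exact hx)
      (fun x hx => by
        have h1 := hcomm 1 x hx
        rw [pow_one] at h1
        have h2 : g0⁻¹ * x * g0 = x := by
          have h3 : g0 * x = x * g0 := by
            rw [mul_inv_eq_iff_eq_mul] at h1; exact h1
          rw [mul_assoc, ← h3, ← mul_assoc, inv_mul_cancel, one_mul]
        rw [h2]; exact hx)
      hfix
    have hpows : ∀ (j : ℕ) (x : F), (((γ' ^ j) x : F) : L) = ρ (g0 ^ j) x := by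
      intro j
      induction j with
      | zero =>
        intro x
        rw [pow_zero, pow_zero, map_one, AlgEquiv.one_apply, AlgEquiv.one_apply]
      | succ j ih =>
        intro x
        rw [pow_succ, pow_succ, map_mul, AlgEquiv.mul_apply, AlgEquiv.mul_apply, ih, hγ']
    have hγ1 : ∀ m : ℕ, γ' ^ m = 1 ↔ p ^ (n + 1) ∣ m := by
      intro m
      rw [← hNiff]
      constructor
      · intro h
        refine hART k L _ ρ N (g0 ^ m) hinj fun x hx => ?_
        have h2 := hpows m ⟨x, (hF x).2 hx⟩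
        rw [h, AlgEquiv.one_apply] at h2
        exact h2.symm
      · intro h
        apply AlgEquiv.ext
        intro x
        apply Subtype.ext
        rw [hpows, AlgEquiv.one_apply]
        exact (hF x).1 x.2 _ h
    have hord' : orderOf γ' = p ^ (n + 1) := by
      apply Nat.dvd_antisymm
      · exact orderOf_dvd_of_pow_eq_one ((hγ1 _).2 dvd_rfl)
      · exact (hγ1 _).1 (pow_orderOf_eq_one γ')
    have hIH := ih F Q γ' hγf hord'
    -- the numbers of `F`
    have hb : ∀ i : ℕ, i ≤ n → P.b (γ ^ (p ^ i)) = Q.b (γ' ^ (p ^ i)) := by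
      intro i hi
      have hnd : ¬ p ^ (n + 1) ∣ p ^ i := by
        intro h
        have := (Nat.pow_dvd_pow_iff_le_right hp.one_lt).1 h
        omega
      have hne : γ ^ (p ^ i) ≠ 1 := by
        intro h
        have h1 := orderOf_dvd_of_pow_eq_one h
        rw [hord] at h1
        have := (Nat.pow_dvd_pow_iff_le_right hp.one_lt).1 h1
        omega
      have hH := hHER k L _ P ρ N F Q (g0 ^ (p ^ i)) (γ' ^ (p ^ i)) hinj hNfix hF hQ
        (fun h => hnd ((hNiff _).1 h)) (by rw [hρ]; exact hfix.pow _) (hpows _) (hγf.pow _)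
        (fun h => hnd ((hγ1 _).1 h))
      have hsum : sm (fun x => P.b (ρ x)) {x | (g0 ^ (p ^ i))⁻¹ * x ∈ N} =
          Nat.card N * P.b (γ ^ (p ^ i)) := by
        unfold sm
        rw [← HBP18.coset_card N (g0 ^ (p ^ i)), ← nsmul_eq_mul, ← Finset.sum_const]
        refine Finset.sum_congr rfl fun x hx => ?_
        have hx' : (g0 ^ (p ^ i))⁻¹ * x ∈ N := (mem_filter.1 hx).2
        obtain ⟨t, ht⟩ := hNel _ hx'
        have e1 : x = g0 ^ (p ^ i * (1 + p ^ (n + 1 - i) * t)) := by
          rw [← mul_inv_cancel_left (g0 ^ (p ^ i)) x, ht, ← pow_add]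
          congr 1
          rw [mul_add, mul_one, ← mul_assoc, ← pow_add]
          congr 3
          omega
        rw [e1]
        show P.b (ρ (g0 ^ (p ^ i * (1 + p ^ (n + 1 - i) * t)))) = _
        rw [hρ, pow_mul]
        refine hcy_cop hLON hINJ P (γ ^ (p ^ i)) (hfix.pow _) hne (p ^ (n + 2 - i)) _ ?_ ?_ ?_
        · exact Nat.one_lt_pow (by omega) hp.one_lt
        · rw [← pow_mul, ← pow_add]
          have : i + (n + 2 - i) = n + 1 + 1 := by omega
          rw [this, ← hord]
          exact pow_orderOf_eq_one γ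
        · apply Nat.Coprime.pow_right
          have h5 : p ∣ p ^ (n + 1 - i) * t := Dvd.dvd.mul_right (dvd_pow_self p (by omega)) t
          obtain ⟨u, hu⟩ := h5
          rw [hu]
          simp
      rw [hsum, hNcard] at hH
      have h3 : (p : ℤ) ≠ 0 := by exact_mod_cast hp.ne_zero
      exact mul_left_cancel₀ h3 hH
    have hlow : ∀ j, 1 ≤ j → j < n + 1 →
        ((p ^ j : ℕ) : ℤ) ∣ P.b (γ ^ (p ^ j)) - P.b (γ ^ (p ^ (j - 1))) := by
      intro j hj1 hjn
      rw [hb j (by omega), hb (j - 1) (by omega)]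
      exact hIH j hj1 (by omega)
    intro j hj1 hjn
    rcases Nat.lt_or_ge j (n + 1) with h | h
    · exact hlow j hj1 h
    · have : j = n + 1 := by omega
      subst this
      exact hHST p k L P γ (n + 1) hp (by omega) hfix hord hlow

end Pool.CND
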